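import Mathlib

/-!
# Wild duality for the finite groups with cyclic Sylow `p`-subgroups: definitions

`k` is an algebraically closed field of characteristic `p`, `O = k[[t]]`, `K = k((t))` and `Ω` is the
separable closure of `K`. (The definitions are written for arbitrary `O`, `K`, `Ω`, `t ∈ O`.)
-/

namespace Pool.Agent.Helper92.CYC

open Polynomial Filter

noncomputable section

universe u v

/-! ### Realizations -/

/-- constructible subsets of the affine space `k^ι` -/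
inductive IsConstr {k : Type u} [Field k] {ι : Type} : Set (ι → k) → Prop
  | zeros (P : MvPolynomial ι k) : IsConstr {x | MvPolynomial.eval x P = 0}
  | compl {S : Set (ι → k)} : IsConstr S → IsConstr Sᶜ
  | inter {S T : Set (ι → k)} : IsConstr S → IsConstr T → IsConstr (S ∩ T)

/-- A realization: it assigns to the constructible subsets of the affine spaces over `k`
polynomials in `ℤ[T]`; the axioms are properties of the (virtual) Poincare polynomial. -/
structure Realization (k : Type u) [Field k] where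
  /-- the class of a subset of `k^ι` -/
  cls : ∀ {ι : Type} [Fintype ι], Set (ι → k) → ℤ[X]
  cls_union : ∀ {ι : Type} [Fintype ι] {S T : Set (ι → k)}, IsConstr S → IsConstr T →
    Disjoint S T → cls (S ∪ T) = cls S + cls T
  cls_prod : ∀ {ι κ : Type} [Fintype ι] [Fintype κ] {S : Set (ι → k)} {T : Set (κ → k)},
    IsConstr S → IsConstr T →
    cls {x : ι ⊕ κ → k | (x ∘ Sum.inl) ∈ S ∧ (x ∘ Sum.inr) ∈ T} = cls S * cls T
  cls_inj : ∀ {ι κ : Type} [Fintype ι] [Fintype κ] (A : (ι → k) →ₗ[k] (κ → k)),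
    Function.Injective A → ∀ {S : Set (ι → k)}, IsConstr S → cls (A '' S) = cls S
  cls_line : cls (Set.univ : Set (Unit → k)) = X ^ 2
  cls_point : cls (Set.univ : Set (Empty → k)) = 1
  cls_deg : ∀ {ι : Type} [Fintype ι] {S T : Set (ι → k)}, IsConstr S → IsConstr T →
    S ⊆ T → (cls S).natDegree ≤ (cls T).natDegree

/-! ### Parameters -/

/-- exponents prime to `p` (in particular nonzero) -/
abbrev Jp (p : ℕ) : Type := {j : ℕ // ¬ p ∣ j}

/-- The parameters: the tuples `(f_0, ..., f_{r-1})` of polynomials in `T^(-1)`, given by their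
coefficients, in which only exponents `-j` with `j` prime to `p` occur. -/
abbrev Par (p r : ℕ) (k : Type u) [Zero k] : Type u := (Fin r × Jp p) →₀ k

/-- coordinates of the finite dimensional piece of `Par p r k` given by pole orders `≤ N` -/
abbrev Co (p r N : ℕ) : Type := Fin r × {j : Fin (N + 1) // ¬ p ∣ (j : ℕ)}

/-- the coordinates of the elements of a set of parameters, for pole orders `≤ N` -/
def coords {p r : ℕ} {k : Type u} [Zero k] (N : ℕ) (S : Set (Par p r k)) :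
    Set (Co p r N → k) :=
  {x | ∃ c ∈ S, ∀ i j, x (i, j) = c (i, ⟨j.1, j.2⟩)}

/-- `HasClass e S P`: the set `S` of parameters has bounded pole orders, and its class is `P` -/
def HasClass {p r : ℕ} {k : Type u} [Field k] (e : Realization k) (S : Set (Par p r k))
    (P : ℤ[X]) : Prop :=
  ∃ N₀ : ℕ, (∀ c ∈ S, ∀ s (j : Jp p), N₀ < j.1 → c (s, j) = 0) ∧
    ∀ N, N₀ ≤ N → IsConstr (coords N S) ∧ e.cls (coords N S) = P

/-- multiplication of all coefficients by `x` -/
def scale {p s : ℕ} {k : Type u} [Field k] (x : k) (c : Par p s k) : Par p s k :=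
  c.mapRange (fun a => x * a) (mul_zero x)

/-! ### Torsors -/

/-- A `G`-torsor over `K` is given by a continuous homomorphism `Gal(Ω / K) → G`; continuity
means that the kernel contains the stabilizer of a finite subset of `Ω`. -/
structure Torsor (K Ω : Type u) [Field K] [Field Ω] [Algebra K Ω] (G : Type v) [Group G] where
  /-- the homomorphism -/
  hom : (Ω ≃ₐ[K] Ω) →* G
  cont : ∃ s : Finset Ω, ∀ σ : Ω ≃ₐ[K] Ω, (∀ x ∈ s, σ x = x) → hom σ = 1

section

variable {p : ℕ} [Fact p.Prime] {k O K Ω : Type u} [Field k] [CommRing O] [Field K] [Field Ω]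
  [Algebra k K] [Algebra K Ω] [Algebra O Ω] {G : Type v} [Group G] {d : ℕ}

/-- two homomorphisms give isomorphic torsors if they are conjugate -/
def Iso (φ ψ : Torsor K Ω G) : Prop := ∃ h : G, ∀ σ, ψ.hom σ = h * φ.hom σ * h⁻¹

variable (K Ω) in
/-- constants `k → Ω` -/
def cst (a : k) : Ω := algebraMap K Ω (algebraMap k K a)

variable (O) in
/-- `x` is in the tuning module `Ξ_φ = (𝒪 ⊗ V)^Gal`: it is integral over `O` and
`σ(x) = ρ(φ(σ))⁻¹ x` for all `σ`. -/
def Tuned (ρ : G →* Matrix (Fin d) (Fin d) k) (φ : Torsor K Ω G) (x : Fin d → Ω) : Prop :=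
  (∀ a, IsIntegral O (x a)) ∧
    ∀ (σ : Ω ≃ₐ[K] Ω) (a : Fin d), σ (x a) = ∑ b, cst K Ω (ρ ((φ.hom σ)⁻¹) a b) * x b

variable (O) in
/-- the family `b` is an `O`-basis of the tuning module -/
def TBasis (ρ : G →* Matrix (Fin d) (Fin d) k) (φ : Torsor K Ω G) (b : Fin d → Fin d → Ω) :
    Prop :=
  (∀ i, Tuned O ρ φ (b i)) ∧ ∀ x : Fin d → Ω, Tuned O ρ φ x →
    ∃! u : Fin d → O, ∀ a, x a = ∑ i, algebraMap O Ω (u i) * b i a

/-- `v(φ) = a`: the determinant of an `O`-basis of `Ξ_φ` has the order `a ∈ ℚ` with respect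
to `t`, i.e. its `M`-th power is `t^l` times a unit of `O`, where `a = l / M`. -/
def VVal (t : O) (ρ : G →* Matrix (Fin d) (Fin d) k) (φ : Torsor K Ω G) (a : ℚ) : Prop :=
  ∃ (b : Fin d → Fin d → Ω) (M l : ℕ) (w : Oˣ), TBasis O ρ φ b ∧ 0 < M ∧
    a = (l : ℚ) / (M : ℚ) ∧ Matrix.det b ^ M = algebraMap O Ω ((w : O) * t ^ l)

/-- the dimension of `V^H`, where `H ⊆ G` is the image of the Galois group -/
def dimFix (ρ : G →* Matrix (Fin d) (Fin d) k) (φ : Torsor K Ω G) : ℕ :=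
  Set.finrank k {x | ∀ σ : Ω ≃ₐ[K] Ω, (ρ (φ.hom σ)).mulVec x = x}

/-- `w(φ) = b`, where `w(φ) = codim V^H - v(φ)` -/
def WVal (t : O) (ρ : G →* Matrix (Fin d) (Fin d) k) (φ : Torsor K Ω G) (b : ℚ) : Prop :=
  ∃ a : ℚ, VVal t ρ φ a ∧ b = (d : ℚ) - dimFix ρ φ - a

variable (K) in
/-- the Witt vector `(f_0(T), ..., f_{s-1}(T), 0, ...)`, where `f_i(T) = ∑_j c_{i,j} T^{-j}` -/
def fT {s : ℕ} (c : Par p s k) (T : Ω) : WittVector p Ω :=
  WittVector.mk p fun i =>
    c.sum fun x a => if (x.1 : ℕ) = i then cst K Ω a * T⁻¹ ^ (x.2 : ℕ) else 0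

/-- The torsor `φ` has the type `(γ, g, c)`: for an `N`-th root `T` of `t` and a root `z` of
`F(z) - z = (f_0(T), ..., f_{s-1}(T))` in the Witt vectors of length `s`, each `σ` has the form
`T ↦ ζ^i T`, `z ↦ θ^i z + l`, and `φ(σ) = γ^i g^l`, where `γ⁻¹ g γ = g^θ`. -/
def IsType (t : O) (N : ℕ) (ζ : k) (γ g : G) {s : ℕ} (c : Par p s k) (φ : Torsor K Ω G) : Prop :=
  ∃ (T : Ω) (z : WittVector p Ω) (θ : ℕ), T ^ N = algebraMap O Ω t ∧
    (∀ i < s, (WittVector.frobenius z - z).coeff i = (fT K c T).coeff i) ∧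
    γ⁻¹ * g * γ = g ^ θ ∧
    ∀ σ : Ω ≃ₐ[K] Ω, ∃ i l : ℕ, σ T = cst K Ω ζ ^ i * T ∧
      (∀ j < s, σ (z.coeff j) = (((θ ^ i : ℕ) : WittVector p Ω) * z + l).coeff j) ∧
      φ.hom σ = γ ^ i * g ^ l

variable (K Ω) in
/-- The family (chart) of the torsors of the types `(γ, g, c)`, `c ∈ S`, is good for `Θ`, a finite
group of scalars: `S` is stable under all scalars, each parameter gives a torsor, and two parameters
give isomorphic torsors if and only if they differ by an element of `Θ`. The set of the isomorphism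
classes is thus the quotient `S / Θ`, and the Poincare polynomials of `S` and of `S / Θ` agree,
because `Θ` is contained in the connected group of all scalars. -/
def Good (t : O) (N : ℕ) (ζ : k) (γ g : G) {s : ℕ} (S : Set (Par p s k)) (Θ : Subgroup kˣ) :
    Prop :=
  Finite Θ ∧ (∀ (x : kˣ), ∀ c ∈ S, scale (x : k) c ∈ S) ∧
    (∀ c ∈ S, ∃ φ : Torsor K Ω G, IsType t N ζ γ g c φ) ∧
    ∀ c ∈ S, ∀ c' ∈ S, ∀ φ ψ : Torsor K Ω G, IsType t N ζ γ g c φ → IsType t N ζ γ g c' ψ →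
      (Iso φ ψ ↔ ∃ x ∈ Θ, c' = scale (x : k) c)

/-- `φ` is isomorphic to a torsor of the chart -/
def InC (t : O) (N : ℕ) (ζ : k) (γ g : G) {s : ℕ} (S : Set (Par p s k)) (φ : Torsor K Ω G) :
    Prop :=
  ∃ c ∈ S, ∃ ψ : Torsor K Ω G, IsType t N ζ γ g c ψ ∧ Iso φ ψ

variable (p) in
/-- The set `D` of (isomorphism classes of) torsors has the class `P`: it is the disjoint union of
the images of finitely many good charts, and `P` is the sum of the classes of the sets of
parameters. -/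
def HasClassG (t : O) (e : Realization k) (D : Set (Torsor K Ω G)) (P : ℤ[X]) : Prop :=
  ∃ (N : ℕ) (ζ : k) (m : ℕ) (γ g : Fin m → G) (s : Fin m → ℕ) (S : ∀ i, Set (Par p (s i) k))
    (Θ : Fin m → Subgroup kˣ) (Q : Fin m → ℤ[X]),
    0 < N ∧ IsPrimitiveRoot ζ N ∧ (∀ i, Good K Ω t N ζ (γ i) (g i) (S i) (Θ i)) ∧
    (∀ i, HasClass e (S i) (Q i)) ∧ P = ∑ i, Q i ∧
    (∀ φ : Torsor K Ω G, φ ∈ D ↔ ∃ i, InC t N ζ (γ i) (g i) (S i) φ) ∧
    ∀ i j, ∀ φ : Torsor K Ω G, InC t N ζ (γ i) (g i) (S i) φ →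
      InC t N ζ (γ j) (g j) (S j) φ → i = j

end

/-- `∑_a P_a L^(d - a)`, `a ∈ (1/n) ℕ`, converges: the dimension of its terms tends to `-∞` -/
def ConvergesG (n : ℕ) (P : ℚ → ℤ[X]) : Prop :=
  Tendsto (fun j : ℕ => 2 * ((j : ℚ) / n) - ((P ((j : ℚ) / n)).natDegree : ℚ)) atTop atTop

/-- the value of a polynomial at a real number -/
def ev (P : ℤ[X]) (x : ℝ) : ℝ := aeval x P

/-- `∑_a P_a L^(d - a)` and `∑_b Q_b L^b`, `L = T^2`, converge for `T = S^n > 1` to rational
functions `R(S)` and `S^(2 n d) R(S⁻¹)` of `S = T^(1/n)` -/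
def DualSumsG (n d : ℕ) (P Q : ℚ → ℤ[X]) : Prop :=
  ∃ A B : ℤ[X], (∀ x : ℝ, 0 < x → x ≠ 1 → ev B x ≠ 0) ∧ ∀ S : ℝ, 1 < S →
    HasSum (fun a : ℚ => ev (P a) (S ^ n) * (S ^ n) ^ (2 * ((d : ℝ) - a))) (ev A S / ev B S) ∧
    HasSum (fun b : ℚ => ev (Q b) (S ^ n) * (S ^ n) ^ (2 * (b : ℝ)))
      (S ^ (2 * n * d) * (ev A S⁻¹ / ev B S⁻¹))

variable (p : ℕ) [Fact p.Prime] {k O : Type u} (K Ω : Type u) [Field k] [CommRing O] [Field K]
  [Field Ω] [Algebra k K] [Algebra K Ω] [Algebra O Ω] {G : Type v} [Group G] {d : ℕ}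

/-- **The wild duality** for `ρ` and the realization `e`. The number `v(φ)` exists for every torsor
`φ`, the sets `{v = a}` and `{w = b}` of torsors have classes `P_a` and `Q_b`, and if
`M_st(X) = ∑_a P_a L^(d - a)` converges, then `M_st(X)` and `M_st(X)_o = ∑_b Q_b L^b` are rational
functions `R(S)` and `T^(2d) R(S⁻¹)` of `S = T^(1/#G)`. -/
def WildDuality (t : O) (ρ : G →* Matrix (Fin d) (Fin d) k) (e : Realization k) : Prop :=
  (∀ φ : Torsor K Ω G, ∃! a : ℚ, VVal t ρ φ a) ∧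
  ∃ P Q : ℚ → ℤ[X],
    (∀ a, HasClassG p t e {φ : Torsor K Ω G | VVal t ρ φ a} (P a)) ∧
    (∀ b, HasClassG p t e {φ : Torsor K Ω G | WVal t ρ φ b} (Q b)) ∧
    (ConvergesG (Nat.card G) P → DualSumsG (Nat.card G) d P Q)

end

end Pool.Agent.Helper92.CYC
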