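import Pool.Agent.WG.Final
import Pool.Agent.Helper92.CYC.Defs

/-!
# Wild duality for the finite groups with cyclic Sylow `p`-subgroups: comparison of definitions
-/

namespace Pool.Agent.Helper92.CYC

open Polynomial Filter

noncomputable section

universe u v

/-! ### Realizations -/

lemma constr_iff {k : Type u} [Field k] {ι : Type} {S : Set (ι → k)} :
    IsConstr S ↔ WD.IsConstr S := by
  constructor
  · intro h
    induction h with
    | zeros P => exact .zeros P
    | compl _ h => exact .compl h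
    | inter _ _ h h' => exact .inter h h'
  · intro h
    induction h with
    | zeros P => exact .zeros P
    | compl _ h => exact .compl h
    | inter _ _ h h' => exact .inter h h'

/-- the realization in the old sense -/
def old {k : Type u} [Field k] (e : Realization k) : WD.Realization k where
  cls := e.cls
  cls_union h h' hd := e.cls_union (constr_iff.2 h) (constr_iff.2 h') hd
  cls_prod h h' := e.cls_prod (constr_iff.2 h) (constr_iff.2 h')
  cls_inj A hA _ h := e.cls_inj A hA (constr_iff.2 h)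
  cls_line := e.cls_line
  cls_point := e.cls_point
  cls_deg h h' hs := e.cls_deg (constr_iff.2 h) (constr_iff.2 h') hs

lemma ext_apply {p r N : ℕ} {k : Type u} [Field k] (x : WD.Co p r N → k) (i : Fin r)
    (j : {j : Fin (N + 1) // ¬ p ∣ (j : ℕ)}) : WD.ext x (i, ⟨j.1, j.2⟩) = x (i, j) := by
  unfold WD.ext
  exact Finsupp.embDomain_apply_self (WD.coEmb p r N) _ (i, j)

lemma ext_apply_of_lt {p r N : ℕ} {k : Type u} [Field k] (x : WD.Co p r N → k) (i : Fin r)
    (j : WD.Jp p) (hj : N < j.1) : WD.ext x (i, j) = 0 := by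
  unfold WD.ext
  apply Finsupp.embDomain_of_notMem_range
  rintro ⟨⟨a, b⟩, h⟩
  have h1 : ((b.1 : ℕ)) = j.1 := congrArg (fun y : Fin r × WD.Jp p => (y.2 : ℕ)) h
  have h2 := b.1.2
  omega

lemma coords_eq {p r N N₀ : ℕ} {k : Type u} [Field k] {S : Set (WD.Par p r k)}
    (h0 : ∀ c ∈ S, ∀ s (j : WD.Jp p), N₀ < j.1 → c (s, j) = 0) (hN : N₀ ≤ N) :
    coords N S = {x : WD.Co p r N → k | WD.ext x ∈ S} := by
  ext x
  constructor
  · rintro ⟨c, hc, hx⟩
    have h1 : WD.ext x = c := by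
      ext ⟨i, j⟩
      by_cases hj : N < j.1
      · rw [ext_apply_of_lt x i j hj, h0 c hc i j (by omega)]
      · have h2 := ext_apply x i ⟨⟨j.1, by omega⟩, j.2⟩
        exact h2.trans (hx i ⟨⟨j.1, by omega⟩, j.2⟩)
    change WD.ext x ∈ S
    rw [h1]
    exact hc
  · intro hx
    exact ⟨WD.ext x, hx, fun i j => (ext_apply x i j).symm⟩

lemma hasClass_of {p r : ℕ} {k : Type u} [Field k] (e : Realization k) (S : Set (WD.Par p r k))
    (P : ℤ[X]) (h : WD.HasClass (old e) S P) : HasClass e S P := by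
  obtain ⟨N₀, h0, h1⟩ := h
  refine ⟨N₀, h0, fun N hN => ?_⟩
  rw [coords_eq h0 hN]
  exact ⟨constr_iff.2 (h1 N hN).1, (h1 N hN).2⟩

/-! ### Torsors -/

section

variable {k : Type u} [Field k] {G : Type v} [Group G] {d : ℕ}

/-- the `G`-torsors over `k((t))` -/
abbrev TorsorK (k : Type u) [Field k] (G : Type v) [Group G] : Type (max u v) :=
  Torsor (LaurentSeries k) (SeparableClosure (LaurentSeries k)) G

/-- the torsor in the old sense -/
def oldT (φ : TorsorK k G) : WG.Torsor k G := ⟨φ.hom, φ.cont⟩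

/-- the torsor in the new sense -/
def newT (φ : WG.Torsor k G) : TorsorK k G := ⟨φ.hom, φ.cont⟩

lemma cst_eq (a : k) :
    cst (LaurentSeries k) (SeparableClosure (LaurentSeries k)) a = WG.cK k a := by
  have h1 : algebraMap k (LaurentSeries k) a = HahnSeries.C a := by
    simp [HahnSeries.algebraMap_apply']
  exact congrArg (algebraMap (LaurentSeries k) (SeparableClosure (LaurentSeries k))) h1

lemma tK_eq : algebraMap (PowerSeries k) (SeparableClosure (LaurentSeries k)) PowerSeries.X =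
    WG.tK k := by
  have h1 : algebraMap (PowerSeries k) (LaurentSeries k) PowerSeries.X = HahnSeries.single 1 1 :=
    HahnSeries.ofPowerSeries_X
  change algebraMap (PowerSeries k) (WG.Ks k) PowerSeries.X =
    algebraMap (LaurentSeries k) (WG.Ks k) (HahnSeries.single 1 1)
  rw [← h1]
  rfl

lemma tuned_iff (ρ : G →* Matrix (Fin d) (Fin d) k) (φ : TorsorK k G)
    (x : Fin d → SeparableClosure (LaurentSeries k)) :
    Tuned (PowerSeries k) ρ φ x ↔ WG.Tuned ρ (oldT φ) x := by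
  unfold Tuned WG.Tuned
  simp only [cst_eq]
  exact Iff.rfl

lemma tbasis_iff (ρ : G →* Matrix (Fin d) (Fin d) k) (φ : TorsorK k G)
    (b : Fin d → Fin d → SeparableClosure (LaurentSeries k)) :
    TBasis (PowerSeries k) ρ φ b ↔ WG.TBasis ρ (oldT φ) b := by
  unfold TBasis WG.TBasis
  simp only [tuned_iff]
  exact Iff.rfl

lemma vval_iff (ρ : G →* Matrix (Fin d) (Fin d) k) (φ : TorsorK k G) (a : ℚ) :
    VVal (PowerSeries.X : PowerSeries k) ρ φ a ↔ WG.VVal ρ (oldT φ) a := by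
  unfold VVal WG.VVal
  simp only [tbasis_iff]
  exact Iff.rfl

lemma wval_iff (ρ : G →* Matrix (Fin d) (Fin d) k) (φ : TorsorK k G) (a : ℚ) :
    WVal (PowerSeries.X : PowerSeries k) ρ φ a ↔ WG.WVal ρ (oldT φ) a := by
  unfold WVal WG.WVal
  simp only [vval_iff]
  exact Iff.rfl

lemma fT_eq {p s : ℕ} (c : WD.Par p s k) (T : SeparableClosure (LaurentSeries k)) :
    fT (LaurentSeries k) c T = WG.fT c T := by
  unfold fT WG.fT
  simp only [cst_eq]
  rfl

variable {p : ℕ} [Fact p.Prime]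

lemma isType_iff (N : ℕ) (ζ : k) (γ g : G) {s : ℕ} (c : WD.Par p s k) (φ : TorsorK k G) :
    IsType (PowerSeries.X : PowerSeries k) N ζ γ g c φ ↔ WG.IsType N ζ γ g c (oldT φ) := by
  unfold IsType WG.IsType
  rw [tK_eq]
  simp only [cst_eq, fT_eq]
  exact Iff.rfl

lemma good_of {N : ℕ} {ζ : k} {C : WG.Chart p k G} {Θ : Subgroup kˣ} (h : WG.Good N ζ C Θ) :
    Good (LaurentSeries k) (SeparableClosure (LaurentSeries k)) (PowerSeries.X : PowerSeries k)
      N ζ C.γ C.g C.S Θ := by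
  obtain ⟨h1, h2, h3, h4⟩ := h
  refine ⟨h1, h2, fun c hc => ?_, fun c hc c' hc' φ ψ hφ hψ => ?_⟩
  · obtain ⟨φ, hφ⟩ := h3 c hc
    exact ⟨newT φ, (isType_iff N ζ _ _ c (newT φ)).2 hφ⟩
  · exact h4 c hc c' hc' (oldT φ) (oldT ψ) ((isType_iff N ζ _ _ c φ).1 hφ)
      ((isType_iff N ζ _ _ c' ψ).1 hψ)

lemma inC_iff (N : ℕ) (ζ : k) (C : WG.Chart p k G) (φ : TorsorK k G) :
    InC (PowerSeries.X : PowerSeries k) N ζ C.γ C.g C.S φ ↔ WG.InC N ζ C (oldT φ) := by
  constructor
  · rintro ⟨c, hc, ψ, h1, h2⟩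
    exact ⟨c, hc, oldT ψ, (isType_iff N ζ _ _ c ψ).1 h1, h2⟩
  · rintro ⟨c, hc, ψ, h1, h2⟩
    exact ⟨c, hc, newT ψ, (isType_iff N ζ _ _ c (newT ψ)).2 h1, h2⟩

lemma hasClassG_of (e : Realization k) {D : Set (WG.Torsor k G)} {P : ℤ[X]}
    (h : WG.HasClassG (p := p) (old e) D P) (D' : Set (TorsorK k G))
    (hD : ∀ φ, φ ∈ D' ↔ oldT φ ∈ D) :
    HasClassG p (PowerSeries.X : PowerSeries k) e D' P := by
  obtain ⟨N, ζ, m, C, Θ, Q, h1, h2, h3, h4, h5, h6, h7⟩ := h
  refine ⟨N, ζ, m, fun i => (C i).γ, fun i => (C i).g, fun i => (C i).s, fun i => (C i).S, Θ, Q,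
    h1, h2, fun i => good_of (h3 i), fun i => hasClass_of e _ _ (h4 i), h5, fun φ => ?_,
    fun i j φ hi hj => ?_⟩
  · rw [hD, h6]
    exact exists_congr fun i => (inC_iff N ζ (C i) φ).symm
  · exact h7 i j (oldT φ) ((inC_iff N ζ (C i) φ).1 hi) ((inC_iff N ζ (C j) φ).1 hj)

end

/-- **The main theorem.** -/
theorem main (p : ℕ) [Fact p.Prime] (k : Type u) [Field k] [IsAlgClosed k] [CharP k p]
    (G : Type v) [Group G] [Finite G] (hG : ∀ P : Sylow p G, IsCyclic P) {d : ℕ}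
    (ρ : G →* Matrix (Fin d) (Fin d) k) (hρ : Function.Injective ρ) (e : Realization k) :
    WildDuality p (LaurentSeries k) (SeparableClosure (LaurentSeries k))
      (PowerSeries.X : PowerSeries k) ρ e := by
  obtain ⟨h1, P, Q, h2, h3, h4⟩ := WG.finalG p k G hG ρ hρ (old e)
  refine ⟨fun φ => ?_, P, Q, fun a => ?_, fun b => ?_, h4⟩
  · obtain ⟨a, ha, hu⟩ := h1 (oldT φ)
    exact ⟨a, (vval_iff ρ φ a).2 ha, fun b hb => hu b ((vval_iff ρ φ b).1 hb)⟩
  · exact hasClassG_of e (h2 a) _ fun φ => vval_iff ρ φ a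
  · exact hasClassG_of e (h3 b) _ fun φ => wval_iff ρ φ b

end

end Pool.Agent.Helper92.CYC
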